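import Mathlib

set_option autoImplicit false

namespace Pool.Agent.Q72.DP

open MvPolynomial

/-- Algebraically independent elements which are algebraic over the field generated by `ξ` are at most
as many as the transcendence degree of a ring between. -/
theorem card_le_aux {k₀ k B σ : Type} [Field k₀] [Field k] [Algebra k₀ k] [CommRing B] [IsDomain B]
    [Algebra k₀ B] [Algebra.FiniteType k₀ B] (f : B →ₐ[k₀] k) (hf : Function.Injective f)
    (ξ : σ → k) (hξ : ∀ i, ∃ b, f b = ξ i)
    (h2 : ∀ b, f b ∈ IntermediateField.adjoin k₀ (Set.range ξ)) (ι : Type) [Fintype ι]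
    (z : ι → k) (hz : AlgebraicIndependent k₀ z)
    (halg : ∀ i, IsAlgebraic (IntermediateField.adjoin k₀ (Set.range ξ)) (z i)) :
    Fintype.card ι ≤ Cardinal.toNat (Algebra.trdeg k₀ B) := by
  let _ : Algebra B k := f.toRingHom.toAlgebra
  have _ : IsScalarTower k₀ B k := IsScalarTower.of_algebraMap_eq fun c => (f.commutes c).symm
  -- the elements of the field are algebraic over `B`
  have h1 : ∀ x ∈ IntermediateField.adjoin k₀ (Set.range ξ), IsAlgebraic B x := by
    intro x hx
    induction hx using IntermediateField.adjoin_induction with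
    | mem x hx =>
      obtain ⟨i, rfl⟩ := hx
      obtain ⟨b, hb⟩ := hξ i
      rw [← hb]
      exact isAlgebraic_algebraMap b
    | algebraMap c =>
      rw [IsScalarTower.algebraMap_apply k₀ B k]
      exact isAlgebraic_algebraMap _
    | add x y _ _ hx hy => exact hx.add hy
    | mul x y _ _ hx hy => exact hx.mul hy
    | inv x _ hx => exact hx.inv
  -- so the `z i` are algebraic over `B`
  let _ : Algebra B (IntermediateField.adjoin k₀ (Set.range ξ)) :=
    (f.toRingHom.codRestrict (IntermediateField.adjoin k₀ (Set.range ξ)) h2).toAlgebra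
  have _ : IsScalarTower B (IntermediateField.adjoin k₀ (Set.range ξ)) k :=
    IsScalarTower.of_algebraMap_eq fun b => rfl
  have _ : Algebra.IsAlgebraic B (IntermediateField.adjoin k₀ (Set.range ξ)) := by
    refine ⟨fun x => ?_⟩
    have h3 := h1 x.1 x.2
    have h4 : Function.Injective
        (algebraMap (IntermediateField.adjoin k₀ (Set.range ξ)) k) :=
      (algebraMap (IntermediateField.adjoin k₀ (Set.range ξ)) k).injective
    exact (isAlgebraic_algebraMap_iff h4).1 h3
  have h3 : ∀ i, IsAlgebraic B (z i) := fun i => (halg i).restrictScalars _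
  -- the algebraic closure of `B`
  obtain ⟨E, hE⟩ : ∃ E, E = Subalgebra.algebraicClosure B k := ⟨_, rfl⟩
  have h4 : ∀ i, z i ∈ E := fun i => by rw [hE]; exact h3 i
  have _ : Algebra.IsAlgebraic B E := by rw [hE]; infer_instance
  have _ : FaithfulSMul B E := by
    rw [faithfulSMul_iff_algebraMap_injective]
    intro a b hab
    apply hf
    exact congrArg Subtype.val hab
  have _ : FaithfulSMul k₀ B := by
    rw [faithfulSMul_iff_algebraMap_injective]
    exact (algebraMap k₀ B).injective
  have h5 : AlgebraicIndependent k₀ (fun i => (⟨z i, h4 i⟩ : E)) :=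
    AlgebraicIndependent.of_comp (E.val.restrictScalars k₀) hz
  have h6 := h5.cardinalMk_le_trdeg
  have h7 := trdeg_add_eq k₀ B (A := E)
  rw [(trdeg_eq_zero : Algebra.trdeg B E = 0), add_zero] at h7
  rw [← h7] at h6
  have h8 := Cardinal.toNat_le_toNat h6
    (trdeg_lt_aleph0_of_finiteType (R := k₀) (S := B))
  rwa [Cardinal.mk_fintype, Cardinal.toNat_natCast] at h8

theorem card_le_trdeg {k₀ k σ : Type} [Field k₀] [Field k] [Algebra k₀ k] [Finite σ] (ξ : σ → k)
    (I : Ideal (MvPolynomial σ k₀)) (hI : ∀ F, F ∈ I ↔ aeval ξ F = 0) (ι : Type) [Fintype ι]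
    (z : ι → k) (hz : AlgebraicIndependent k₀ z)
    (halg : ∀ i, IsAlgebraic (IntermediateField.adjoin k₀ (Set.range ξ)) (z i)) :
    Fintype.card ι ≤ Cardinal.toNat (Algebra.trdeg k₀ (MvPolynomial σ k₀ ⧸ I)) := by
  have hIker : I = RingHom.ker (aeval (R := k₀) ξ) := by
    ext F
    rw [hI, RingHom.mem_ker]
  have hprime : I.IsPrime := by rw [hIker]; exact RingHom.ker_isPrime _
  obtain ⟨f, hfdef⟩ : ∃ f : (MvPolynomial σ k₀ ⧸ I) →ₐ[k₀] k,
      ∀ F, f (Ideal.Quotient.mk I F) = aeval ξ F :=
    ⟨Ideal.Quotient.liftₐ I (aeval ξ) (fun a ha => (hI a).1 ha), fun F => rfl⟩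
  have hf : Function.Injective f := by
    rw [injective_iff_map_eq_zero]
    intro b hb
    obtain ⟨F, rfl⟩ := Ideal.Quotient.mk_surjective b
    rw [hfdef] at hb
    exact Ideal.Quotient.eq_zero_iff_mem.2 ((hI F).2 hb)
  refine card_le_aux f hf ξ (fun i => ⟨Ideal.Quotient.mk I (X i), by rw [hfdef, aeval_X]⟩) ?_ ι z
    hz halg
  intro b
  obtain ⟨F, rfl⟩ := Ideal.Quotient.mk_surjective b
  rw [hfdef]
  induction F using MvPolynomial.induction_on with
  | C c =>
    rw [MvPolynomial.aeval_C]
    exact (IntermediateField.adjoin k₀ (Set.range ξ)).algebraMap_mem c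
  | add p q hp hq => rw [map_add]; exact add_mem hp hq
  | mul_X p i hp =>
    rw [map_mul, aeval_X]
    exact mul_mem hp (IntermediateField.subset_adjoin _ _ ⟨i, rfl⟩)

end Pool.Agent.Q72.DP
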