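import Pool.Agent.Q35.DP.Plan
import Pool.Agent.Q72.DP.SPECA

set_option autoImplicit false

namespace Pool.Agent.Q72.DP

open MvPolynomial FF Pool.Agent.W603.LV Pool.Agent.TH145.GH Pool.Agent.Y166.DP Pool.Agent.Q35.DP

theorem spec : StmSpec := by
  intro k₀ k σ _ _ _ _ _ ξ μ hμ Z hZ
  have hker : ∀ F : MvPolynomial σ k₀, F ∈ RingHom.ker (aeval (R := k₀) ξ) ↔ aeval ξ F = 0 :=
    fun F => RingHom.mem_ker
  have hprime : (RingHom.ker (aeval (R := k₀) ξ)).IsPrime := RingHom.ker_isPrime _
  have hvan : ∀ F : MvPolynomial σ k₀, F ∈ van Z ↔ aeval ξ F = 0 := by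
    intro F
    constructor
    · intro hF
      have h1 : F * μ ∈ vanishingIdeal k₀ (zeroLocus k₀ (RingHom.ker (aeval (R := k₀) ξ))) := by
        intro z hz
        rw [map_mul]
        by_cases hzμ : eval z μ = 0
        · have : aeval z μ = 0 := by rw [MvPolynomial.aeval_eq_eval]; exact hzμ
          rw [this, mul_zero]
        · have h2 : z ∈ Z := by
            rw [hZ]
            refine ⟨fun G hG => ?_, hzμ⟩
            have h3 := hz G ((hker G).2 hG)
            rwa [MvPolynomial.aeval_eq_eval] at h3
          have h3 : eval z F = 0 := hF z h2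
          have : aeval z F = 0 := by rw [MvPolynomial.aeval_eq_eval]; exact h3
          rw [this, zero_mul]
      rw [vanishingIdeal_zeroLocus_eq_radical, hprime.radical, hker, map_mul] at h1
      exact (mul_eq_zero.1 h1).resolve_right hμ
    · intro hF z hz
      rw [hZ] at hz
      exact hz.1 F hF
  refine ⟨hvan, ?_, ?_⟩
  · have h1 : van Z = RingHom.ker (aeval (R := k₀) ξ) := by
      ext F
      rw [hvan, hker]
    show (van Z).IsPrime
    rw [h1]
    exact hprime
  · intro ι _ z hz halg
    exact card_le_trdeg ξ (van Z) hvan ι z hz halg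

end Pool.Agent.Q72.DP
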